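import Mathlib

set_option autoImplicit false

/-! # A Hoffman type bound from averaged kernels over cuts -/

namespace Pool.Agent.Helper38.C3

open Finset

section pre

variable {E : Type*} [DecidableEq E]

/-- character -/
def chi (R A : Finset E) : ℝ := (-1) ^ (R ∩ A).card

/-- unnormalised Fourier coefficient -/
noncomputable def hat (F : Finset (Finset E)) (R : Finset E) : ℝ := ∑ A ∈ F, chi R A

lemma chi_eq_prod (R A : Finset E) : chi R A = ∏ e ∈ R, (if e ∈ A then (-1 : ℝ) else 1) := by
  unfold chi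
  rw [prod_ite, prod_const, prod_const_one, mul_one]
  congr 2

lemma chi_comm (R A : Finset E) : chi R A = chi A R := by
  unfold chi; rw [inter_comm]

lemma chi_sq (R A : Finset E) : chi R A * chi R A = 1 := by
  unfold chi
  rw [← mul_pow]; norm_num

lemma chi_empty (A : Finset E) : chi (∅ : Finset E) A = 1 := by
  unfold chi; simp

lemma chi_mul (R A B : Finset E) : chi R A * chi R B = chi R (symmDiff A B) := by
  rw [chi_eq_prod, chi_eq_prod, chi_eq_prod, ← prod_mul_distrib]
  refine prod_congr rfl fun e _ => ?_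
  by_cases h1 : e ∈ A <;> by_cases h2 : e ∈ B <;> simp [h1, h2, mem_symmDiff]

lemma chi_symm_single (R D : Finset E) (e : E) (he : e ∈ D) :
    chi (symmDiff R {e}) D = - chi R D := by
  rw [chi_comm, ← chi_mul, chi_comm D R]
  have : chi D {e} = -1 := by
    unfold chi
    rw [inter_singleton_of_mem he, card_singleton, pow_one]
  rw [this]; ring

end pre

variable {E : Type*} [Fintype E] [DecidableEq E]

/-- the sum vanishes when the weight ignores an element of `D` -/
lemma sum_zero (w : Finset E → ℝ) (D : Finset E) (e : E) (he : e ∈ D)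
    (hw : ∀ R, w (symmDiff R {e}) = w R) : ∑ R : Finset E, w R * chi R D = 0 := by
  refine sum_involution (fun R _ => symmDiff R {e}) ?_ ?_ ?_ ?_
  · intro R _
    rw [hw, chi_symm_single R D e he]; ring
  · intro R _ _ h
    have : (symmDiff R {e}) = R := h
    rw [symmDiff_eq_left] at this
    exact singleton_ne_empty e this
  · intro R _; exact mem_univ _
  · intro R _
    show symmDiff (symmDiff R {e}) {e} = R
    rw [symmDiff_assoc, symmDiff_self]; exact symmDiff_bot R

lemma sum_chi (D : Finset E) (hD : D.Nonempty) : ∑ R : Finset E, chi R D = 0 := by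
  obtain ⟨e, he⟩ := hD
  have := sum_zero (fun _ => 1) D e he (fun _ => rfl)
  simpa using this

/-- Parseval -/
lemma parseval (F : Finset (Finset E)) :
    ∑ R : Finset E, hat F R * hat F R = (2 : ℝ) ^ (Fintype.card E) * F.card := by
  have h1 : ∑ R : Finset E, hat F R * hat F R
      = ∑ A ∈ F, ∑ B ∈ F, ∑ R : Finset E, chi R (symmDiff A B) := by
    calc _ = ∑ R : Finset E, ∑ A ∈ F, ∑ B ∈ F, chi R (symmDiff A B) := by
          refine sum_congr rfl fun R _ => ?_
          unfold hat
          rw [sum_mul_sum]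
          refine sum_congr rfl fun A _ => sum_congr rfl fun B _ => chi_mul R A B
      _ = _ := by
          rw [sum_comm]
          refine sum_congr rfl fun A _ => ?_
          rw [sum_comm]
  rw [h1]
  have h2 : ∀ A ∈ F, ∑ B ∈ F, ∑ R : Finset E, chi R (symmDiff A B)
      = (2 : ℝ) ^ (Fintype.card E) := by
    intro A hA
    rw [sum_eq_single_of_mem A hA]
    · rw [symmDiff_self]
      have : ∀ R : Finset E, chi R (⊥ : Finset E) = 1 := by
        intro R; unfold chi; simp
      rw [sum_congr rfl (fun R _ => this R), sum_const, card_univ, Fintype.card_finset]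
      simp
    · intro B _ hne
      refine sum_chi _ ?_
      rw [nonempty_iff_ne_empty]
      intro h
      exact hne (symmDiff_eq_bot.1 h).symm
  rw [sum_congr rfl h2, sum_const]
  simp [mul_comm]

variable {S : Type*} [Fintype S]

/-- the averaged kernel -/
noncomputable def Yk (N : S → Finset E) (φ : Finset E → ℝ) (R : Finset E) : ℝ :=
  ∑ s : S, φ (R ∩ N s)

lemma kernel_zero (N : S → Finset E) (φ : Finset E → ℝ) (D : Finset E)
    (hD : ∀ s, ¬ D ⊆ N s) : ∑ R : Finset E, Yk N φ R * chi R D = 0 := by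
  unfold Yk
  simp_rw [sum_mul]
  rw [sum_comm]
  refine sum_eq_zero fun s _ => ?_
  obtain ⟨e, heD, heN⟩ := not_subset.1 (hD s)
  refine sum_zero (fun R => φ (R ∩ N s)) D e heD ?_
  intro R
  show φ (symmDiff R {e} ∩ N s) = φ (R ∩ N s)
  congr 1
  ext x
  simp only [mem_inter, mem_symmDiff, mem_singleton]
  by_cases hx : x = e
  · subst hx; simp [heN]
  · simp [hx]

lemma cross_zero (N : S → Finset E) (φ : Finset E → ℝ) (F G : Finset (Finset E))
    (h : ∀ A ∈ F, ∀ B ∈ G, ∀ s, ¬ symmDiff A B ⊆ N s) :
    ∑ R : Finset E, Yk N φ R * (hat F R * hat G R) = 0 := by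
  have h1 : ∑ R : Finset E, Yk N φ R * (hat F R * hat G R)
      = ∑ A ∈ F, ∑ B ∈ G, ∑ R : Finset E, Yk N φ R * chi R (symmDiff A B) := by
    calc _ = ∑ R : Finset E, ∑ A ∈ F, ∑ B ∈ G, Yk N φ R * chi R (symmDiff A B) := by
          refine sum_congr rfl fun R _ => ?_
          unfold hat
          rw [sum_mul_sum, mul_sum]
          refine sum_congr rfl fun A _ => ?_
          rw [mul_sum]
          refine sum_congr rfl fun B _ => ?_
          rw [chi_mul]
      _ = _ := by
          rw [sum_comm]
          refine sum_congr rfl fun A _ => ?_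
          rw [sum_comm]
  rw [h1]
  exact sum_eq_zero fun A hA => sum_eq_zero fun B hB => kernel_zero N φ _ (h A hA B hB)

/-- **Hoffman bound from a cut certificate.** -/
theorem hoffman [Nonempty S] (N : S → Finset E) (φ : Finset E → ℝ) (c : ℝ) (hc : 0 ≤ c)
    (h0 : φ ∅ = c) (hY : ∀ R : Finset E, R.Nonempty → |Yk N φ R| ≤ Fintype.card S)
    (F G : Finset (Finset E)) (h : ∀ A ∈ F, ∀ B ∈ G, ∀ s, ¬ symmDiff A B ⊆ N s) :
    c ^ 2 * ((F.card : ℝ) * G.card) ≤
      ((2 : ℝ) ^ (Fintype.card E) - F.card) * ((2 : ℝ) ^ (Fintype.card E) - G.card) := by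
  classical
  set M : ℝ := (2 : ℝ) ^ (Fintype.card E) with hM
  have hFle : (F.card : ℝ) ≤ M := by
    have := card_le_univ F
    rw [Fintype.card_finset] at this
    rw [hM]
    exact_mod_cast this
  have hGle : (G.card : ℝ) ≤ M := by
    have := card_le_univ G
    rw [Fintype.card_finset] at this
    rw [hM]
    exact_mod_cast this
  have hS : (0 : ℝ) < Fintype.card S := by exact_mod_cast Fintype.card_pos
  have hz := cross_zero N φ F G h
  rw [← add_sum_erase univ _ (mem_univ (∅ : Finset E))] at hz
  have hY0 : Yk N φ ∅ = Fintype.card S * c := by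
    unfold Yk
    rw [sum_congr rfl (fun s _ => by rw [empty_inter, h0]), sum_const, card_univ, nsmul_eq_mul]
  have hF0 : ∀ H : Finset (Finset E), hat H ∅ = H.card := by
    intro H; unfold hat
    rw [sum_congr rfl (fun A _ => chi_empty A), sum_const, nsmul_eq_mul, mul_one]
  rw [hY0, hF0, hF0] at hz
  have hpar : ∀ H : Finset (Finset E), ∑ R ∈ univ.erase (∅ : Finset E), |hat H R| ^ 2
      = M * H.card - (H.card : ℝ) ^ 2 := by
    intro H
    have h1 := parseval H
    rw [← add_sum_erase univ _ (mem_univ (∅ : Finset E)), hF0] at h1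
    rw [← hM] at h1
    have h2 : ∑ R ∈ univ.erase (∅ : Finset E), |hat H R| ^ 2
        = ∑ R ∈ univ.erase (∅ : Finset E), hat H R * hat H R :=
      sum_congr rfl fun R _ => by rw [sq_abs]; ring
    rw [h2]; linarith
  have hb : |∑ R ∈ univ.erase (∅ : Finset E), Yk N φ R * (hat F R * hat G R)|
      ≤ Fintype.card S * ∑ R ∈ univ.erase (∅ : Finset E), |hat F R| * |hat G R| := by
    refine (abs_sum_le_sum_abs _ _).trans ?_
    rw [mul_sum]
    refine sum_le_sum fun R hR => ?_
    rw [abs_mul, abs_mul]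
    refine mul_le_mul_of_nonneg_right (hY R ?_) (by positivity)
    rw [nonempty_iff_ne_empty]
    exact ne_of_mem_erase hR
  have hcs := sum_mul_sq_le_sq_mul_sq (univ.erase (∅ : Finset E)) (fun R => |hat F R|)
    (fun R => |hat G R|)
  rw [hpar F, hpar G] at hcs
  set T := ∑ R ∈ univ.erase (∅ : Finset E), |hat F R| * |hat G R| with hT
  have hT0 : 0 ≤ T := sum_nonneg fun R _ => by positivity
  have h3 : c * ((F.card : ℝ) * G.card) ≤ T := by
    have h4 : Fintype.card S * c * ((F.card : ℝ) * G.card)
        = - ∑ R ∈ univ.erase (∅ : Finset E), Yk N φ R * (hat F R * hat G R) := by linarith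
    have h5 : (Fintype.card S : ℝ) * (c * ((F.card : ℝ) * G.card)) ≤ Fintype.card S * T := by
      calc _ = Fintype.card S * c * ((F.card : ℝ) * G.card) := by ring
        _ = - ∑ R ∈ univ.erase (∅ : Finset E), Yk N φ R * (hat F R * hat G R) := h4
        _ ≤ |∑ R ∈ univ.erase (∅ : Finset E), Yk N φ R * (hat F R * hat G R)| :=
            neg_le_abs _
        _ ≤ _ := hb
    exact le_of_mul_le_mul_left h5 hS
  set f : ℝ := (F.card : ℝ) with hf
  set g : ℝ := (G.card : ℝ) with hg
  have hf0 : 0 ≤ f := Nat.cast_nonneg _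
  have hg0 : 0 ≤ g := Nat.cast_nonneg _
  rcases eq_or_lt_of_le hf0 with hfz | hfp
  · rw [← hfz]; simp only [zero_mul, mul_zero]
    exact mul_nonneg (by linarith) (by linarith)
  rcases eq_or_lt_of_le hg0 with hgz | hgp
  · rw [← hgz]; simp only [mul_zero]
    exact mul_nonneg (by linarith) (by linarith)
  have hfg : 0 < f * g := mul_pos hfp hgp
  have h6 : (c * (f * g)) ^ 2 ≤ T ^ 2 := by
    apply pow_le_pow_left₀ (by positivity) h3
  have h7 : f * g * (c ^ 2 * (f * g)) ≤ f * g * ((M - f) * (M - g)) := by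
    calc f * g * (c ^ 2 * (f * g)) = (c * (f * g)) ^ 2 := by ring
      _ ≤ T ^ 2 := h6
      _ ≤ (M * f - f ^ 2) * (M * g - g ^ 2) := hcs
      _ = f * g * ((M - f) * (M - g)) := by ring
  exact le_of_mul_le_mul_left h7 hfg

end Pool.Agent.Helper38.C3
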