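import Mathlib
import Pool.Agent.Helper64.CX.Peel
import Pool.Agent.Helper38.C3.Hoff

set_option autoImplicit false

/-! # Two colours: the exact bound from a cut certificate -/

namespace Pool.Agent.Helper38.C3

open Finset
open Pool.Agent.Helper64.CX (Cfg Pr Col enc Pr_enc enc_eq Cross Bound card_cfg)

/-- edges of the complete graph -/
abbrev Ed (n : ℕ) : Type := {p : Fin n × Fin n // p.1 < p.2}

/-- edges cut by `s` -/
def cut (n : ℕ) (s : Fin n → Bool) : Finset (Ed n) := univ.filter (fun p => s p.1.1 ≠ s p.1.2)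

lemma enc_congr : ∀ (n : ℕ) (a b : Fin n → Fin n → Bool), (∀ i j, i < j → a i j = b i j) →
    enc n a = enc n b := by
  intro n
  induction n with
  | zero => intro a b _; rfl
  | succ n ih =>
    intro a b h
    have h1 := ih (fun i j => a i.castSucc j.castSucc) (fun i j => b i.castSucc j.castSucc)
      (fun i j hij => h _ _ (Fin.castSucc_lt_castSucc_iff.2 hij))
    have h2 : (fun i : Fin n => a i.castSucc (Fin.last n)) = fun i => b i.castSucc (Fin.last n) :=
      funext fun i => h _ _ (Fin.castSucc_lt_last i)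
    exact Prod.ext h1 h2

lemma enc_surj : ∀ (n : ℕ) (A : Cfg n), ∃ a : Fin n → Fin n → Bool, enc n a = A := by
  intro n
  induction n with
  | zero => intro A; exact ⟨fun _ _ => false, rfl⟩
  | succ n ih =>
    rintro ⟨A1, x⟩
    obtain ⟨a1, h1⟩ := ih A1
    let a : Fin (n + 1) → Fin (n + 1) → Bool := fun i j =>
      if hj : j.val < n then (if hi : i.val < n then a1 ⟨i, hi⟩ ⟨j, hj⟩ else false)
      else (if hi : i.val < n then x ⟨i, hi⟩ else false)
    have e1 : enc n (fun i j => a i.castSucc j.castSucc) = A1 := by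
      rw [← h1]
      refine enc_congr n _ _ fun i j _ => ?_
      have hi : (i.castSucc).val < n := i.2
      have hj : (j.castSucc).val < n := j.2
      simp only [a, hi, hj, dif_pos]
      rfl
    have e2 : (fun i : Fin n => a i.castSucc (Fin.last n)) = x := by
      funext i
      have hi : (i.castSucc).val < n := i.2
      have hj : ¬ (Fin.last n).val < n := by simp
      simp only [a, hi, hj, dif_pos, dif_neg, not_false_eq_true]
      rfl
    exact ⟨a, Prod.ext e1 e2⟩

/-- adjacency function of a configuration -/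
noncomputable def dec (n : ℕ) (A : Cfg n) : Fin n → Fin n → Bool := (enc_surj n A).choose

lemma enc_dec (n : ℕ) (A : Cfg n) : enc n (dec n A) = A := (enc_surj n A).choose_spec

/-- edge set of a configuration -/
noncomputable def es (n : ℕ) (A : Cfg n) : Finset (Ed n) :=
  univ.filter (fun p => dec n A p.1.1 p.1.2 = true)

lemma mem_es (n : ℕ) (A : Cfg n) (p : Ed n) : p ∈ es n A ↔ dec n A p.1.1 p.1.2 = true := by
  simp [es]

lemma es_inj (n : ℕ) : Function.Injective (es n) := by
  intro A B h
  rw [← enc_dec n A, ← enc_dec n B]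
  refine enc_congr n _ _ fun i j hij => ?_
  have h1 := mem_es n A ⟨(i, j), hij⟩
  have h2 := mem_es n B ⟨(i, j), hij⟩
  rw [h] at h1
  have h3 := h1.symm.trans h2
  simp only at h3
  exact Bool.eq_iff_iff.2 h3

lemma es_surj (n : ℕ) : Function.Surjective (es n) := by
  classical
  intro T
  refine ⟨enc n (fun i j => if h : i < j then decide ((⟨(i, j), h⟩ : Ed n) ∈ T) else false), ?_⟩
  ext p
  rw [mem_es]
  have h := enc_eq n _ _ (enc_dec n (enc n (fun i j => if h : i < j then
    decide ((⟨(i, j), h⟩ : Ed n) ∈ T) else false))) p.1.1 p.1.2 p.2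
  rw [h]
  simp [p.2]

lemma card_ed (n : ℕ) : (2 : ℝ) ^ (Fintype.card (Ed n)) = 2 ^ (n.choose 2) := by
  have h := Fintype.card_of_bijective (⟨es_inj n, es_surj n⟩ : Function.Bijective (es n))
  rw [card_cfg, Fintype.card_finset] at h
  exact_mod_cast h.symm

lemma col_of_sub (n : ℕ) (A B : Cfg n) (s : Fin n → Bool)
    (h : symmDiff (es n A) (es n B) ⊆ cut n s) : Col 2 n A B := by
  refine ⟨fun i => if s i then 1 else 0, ?_⟩
  rw [← enc_dec n A, ← enc_dec n B, Pr_enc]
  intro i j hij hne hcc
  have h1 : (⟨(i, j), hij⟩ : Ed n) ∈ symmDiff (es n A) (es n B) := by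
    rw [mem_symmDiff, mem_es, mem_es]
    simp only
    cases ha : dec n A i j <;> cases hb : dec n B i j <;> simp_all
  have h2 := h h1
  simp only [cut, mem_filter, mem_univ, true_and] at h2
  cases ha : s i <;> cases hb : s j <;> simp_all

/-- **The Hoffman form of the bound for two colours.** -/
theorem hoff_two (n : ℕ) (φ : Finset (Ed n) → ℝ) (h0 : φ ∅ = 7)
    (hY : ∀ R : Finset (Ed n), R.Nonempty →
      |∑ s : Fin n → Bool, φ (R ∩ cut n s)| ≤ 2 ^ n)
    (F G : Finset (Cfg n)) (h : Cross 2 n F G) :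
    49 * ((F.card : ℝ) * G.card) ≤
      ((2 : ℝ) ^ (n.choose 2) - F.card) * ((2 : ℝ) ^ (n.choose 2) - G.card) := by
  classical
  have h1 := hoffman (E := Ed n) (S := Fin n → Bool) (cut n) φ 7 (by norm_num) h0 (by
    intro R hR
    have := hY R hR
    have hc : ((Fintype.card (Fin n → Bool) : ℕ) : ℝ) = 2 ^ n := by
      rw [Fintype.card_fun, Fintype.card_bool, Fintype.card_fin]; push_cast; rfl
    rw [hc]
    exact this) (F.image (es n)) (G.image (es n)) (by
    intro A' hA' B' hB' s hs
    obtain ⟨A, hA, rfl⟩ := mem_image.1 hA'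
    obtain ⟨B, hB, rfl⟩ := mem_image.1 hB'
    exact h A hA B hB (col_of_sub n A B s hs))
  rw [card_image_of_injective _ (es_inj n), card_image_of_injective _ (es_inj n), card_ed] at h1
  norm_num at h1
  linarith

/-- **The exact bound for two colours.** -/
theorem bound_two_of (n : ℕ) (φ : Finset (Ed n) → ℝ) (h0 : φ ∅ = 7)
    (hY : ∀ R : Finset (Ed n), R.Nonempty →
      |∑ s : Fin n → Bool, φ (R ∩ cut n s)| ≤ 2 ^ n) : Bound 2 n (1 / 64) := by
  intro F G h
  have h1 := hoff_two n φ h0 hY F G h
  set M : ℝ := (2 : ℝ) ^ (n.choose 2) with hM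
  set f : ℝ := (F.card : ℝ) with hf
  set g : ℝ := (G.card : ℝ) with hg
  have hM0 : 0 < M := by positivity
  have hf0 : 0 ≤ f := Nat.cast_nonneg _
  have hg0 : 0 ≤ g := Nat.cast_nonneg _
  by_contra hcon
  push Not at hcon
  have h2 : M ^ 2 < 64 * (f * g) := by linarith
  have h3 : M < 4 * (f + g) := by
    by_contra h4
    push Not at h4
    have h5 : (4 * (f + g)) ^ 2 ≤ M ^ 2 := by
      apply pow_le_pow_left₀ (by positivity) h4
    nlinarith [sq_nonneg (f - g)]
  nlinarith

end Pool.Agent.Helper38.C3
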