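import Mathlib
import Pool.Agent.Helper41.PX.Defs

set_option autoImplicit false

/-! # From the union form to the chromatic statement -/

namespace Pool.Agent.Helper38.C3

open Finset
open Pool.Agent.Helper41.PX (mu Conf Cov un PairOn UB)

/-- members of the union form: `z` is the complement of a member of `F` off the diagonal -/
def fam {n : ℕ} (F : Finset (SimpleGraph (Fin n))) (z : Conf (Fin n)) : Prop :=
  ∃ G ∈ F, ∀ a b, a ≠ b → (z s(a, b) = true ↔ ¬ G.Adj a b)

lemma pair_fam {n k : ℕ} (F : Finset (SimpleGraph (Fin n)))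
    (hF : ∀ G ∈ F, ∀ H ∈ F, (((k + 1 : ℕ) : ℕ∞) ≤ (G ⊓ H).chromaticNumber)) :
    PairOn k (univ : Finset (Fin n)) (fam F) (fam F) := by
  rintro A C ⟨G, hG, hA⟩ ⟨H, hH, hC⟩ ⟨r, hr⟩
  have hcol : (G ⊓ H).Colorable k := by
    refine ⟨SimpleGraph.Coloring.mk r ?_⟩
    intro a b hab hrab
    have hne : a ≠ b := hab.ne
    have h1 := hr a (mem_univ _) b (mem_univ _) hne hrab
    simp only [un, Bool.or_eq_true] at h1
    rw [SimpleGraph.inf_adj] at hab
    rcases h1 with h1 | h1
    · exact (hA a b hne).1 h1 hab.1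
    · exact (hC a b hne).1 h1 hab.2
  have h2 := (hF G hG H hH).trans hcol.chromaticNumber_le
  have h3 : k + 1 ≤ k := by exact_mod_cast h2
  omega

/-- the configuration of a graph together with a diagonal part -/
noncomputable def toConf {n : ℕ} (p : SimpleGraph (Fin n) × (Fin n → Bool)) : Conf (Fin n) := by
  classical
  exact fun e => if h : ∃ a, e = s(a, a) then p.2 h.choose else decide (e ∉ p.1.edgeSet)

lemma toConf_off {n : ℕ} (p : SimpleGraph (Fin n) × (Fin n → Bool)) (a b : Fin n) (h : a ≠ b) :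
    toConf p s(a, b) = true ↔ ¬ p.1.Adj a b := by
  classical
  have h1 : ¬ ∃ c, (s(a, b) : Sym2 (Fin n)) = s(c, c) := by
    rintro ⟨c, hc⟩
    rw [Sym2.eq_iff] at hc
    rcases hc with ⟨h1, h2⟩ | ⟨h1, h2⟩
    · exact h (h1.trans h2.symm)
    · exact h (h1.trans h2.symm)
  unfold toConf
  rw [dif_neg h1, decide_eq_true_iff, SimpleGraph.mem_edgeSet]

lemma toConf_diag {n : ℕ} (p : SimpleGraph (Fin n) × (Fin n → Bool)) (a : Fin n) :
    toConf p s(a, a) = p.2 a := by
  classical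
  have h1 : ∃ c, (s(a, a) : Sym2 (Fin n)) = s(c, c) := ⟨a, rfl⟩
  have h2 : h1.choose = a := by
    have h3 := h1.choose_spec
    rw [Sym2.eq_iff] at h3
    rcases h3 with ⟨h3, _⟩ | ⟨h3, _⟩ <;> exact h3.symm
  unfold toConf
  rw [dif_pos h1, h2]

lemma toConf_inj {n : ℕ} : Function.Injective (toConf (n := n)) := by
  intro p q h
  refine Prod.ext ?_ ?_
  · ext a b
    by_cases hab : a = b
    · subst hab; simp
    · have h1 := toConf_off p a b hab
      have h2 := toConf_off q a b hab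
      rw [h] at h1
      exact not_iff_not.1 (h1.symm.trans h2)
  · funext a
    rw [← toConf_diag p a, ← toConf_diag q a, h]

lemma mu_eq_card {Z : Type*} [Fintype Z] (P : Z → Prop) [DecidablePred P] :
    mu P = ((univ.filter P).card : ℝ) / Fintype.card Z := by
  classical
  unfold mu
  rw [Fintype.expect_eq_sum_div_card]
  congr 1
  rw [← sum_boole]
  refine sum_congr rfl fun z _ => ?_
  split_ifs <;> rfl

lemma card_conf (n : ℕ) : Fintype.card (Conf (Fin n)) = 2 ^ (n.choose 2) * 2 ^ n := by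
  rw [Fintype.card_fun, Fintype.card_bool, Sym2.card, Fintype.card_fin, ← pow_add]
  congr 1
  rw [Nat.choose_succ_succ' n 1, Nat.choose_one_right]; ring

lemma mu_fam {n : ℕ} (F : Finset (SimpleGraph (Fin n))) :
    (F.card : ℝ) / 2 ^ (n.choose 2) ≤ mu (fam F) := by
  classical
  rw [mu_eq_card, card_conf]
  have h1 : F.card * 2 ^ n ≤ (univ.filter (fam F)).card := by
    have h2 : ((F ×ˢ (univ : Finset (Fin n → Bool))).image toConf).card = F.card * 2 ^ n := by
      rw [card_image_of_injective _ toConf_inj, card_product, card_univ, Fintype.card_fun,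
        Fintype.card_bool, Fintype.card_fin]
    rw [← h2]
    refine card_le_card fun z hz => ?_
    obtain ⟨p, hp, rfl⟩ := mem_image.1 hz
    rw [mem_filter]
    exact ⟨mem_univ _, p.1, (mem_product.1 hp).1, fun a b hab => toConf_off p a b hab⟩
  have h3 : ((F.card * 2 ^ n : ℕ) : ℝ) ≤ ((univ.filter (fam F)).card : ℝ) := by exact_mod_cast h1
  push_cast at h3 ⊢
  rw [div_le_div_iff₀ (by positivity) (by positivity)]
  nlinarith [pow_pos (show (0 : ℝ) < 2 by norm_num) (n.choose 2)]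

/-- **The single family statement from the union form.** -/
theorem frozen_of_UB (H : ∀ k, 2 ≤ k → ∀ n, UB k (univ : Finset (Fin n))) :
    ∀ (t : ℕ), 3 ≤ t → ∀ (n : ℕ) (F : Finset (SimpleGraph (Fin n))),
      (∀ G ∈ F, ∀ H ∈ F, ((t : ℕ∞) ≤ (G ⊓ H).chromaticNumber)) →
        F.card ≤ 2 ^ (n.choose 2 - t.choose 2) := by
  classical
  intro t ht n F hF
  obtain ⟨k, rfl⟩ : ∃ k, t = k + 1 := ⟨t - 1, by omega⟩
  rcases F.eq_empty_or_nonempty with he | ⟨G₀, hG₀⟩
  · rw [he, card_empty]; positivity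
  have htn : k + 1 ≤ n := by
    have h1 := (hF G₀ hG₀ G₀ hG₀).trans (G₀ ⊓ G₀).colorable_of_fintype.chromaticNumber_le
    rw [Fintype.card_fin] at h1
    exact_mod_cast h1
  have hch : (k + 1).choose 2 ≤ n.choose 2 := Nat.choose_le_choose 2 htn
  have h1 := H k (by omega) n (fam F) (fam F) (pair_fam F hF)
  have h2 := mu_fam F
  have h3 : (0 : ℝ) ≤ (F.card : ℝ) / 2 ^ (n.choose 2) := by positivity
  have h4 : ((F.card : ℝ) / 2 ^ (n.choose 2)) ^ 2 ≤ ((1 / 2 : ℝ) ^ ((k + 1).choose 2)) ^ 2 := by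
    calc ((F.card : ℝ) / 2 ^ (n.choose 2)) ^ 2
        = ((F.card : ℝ) / 2 ^ (n.choose 2)) * ((F.card : ℝ) / 2 ^ (n.choose 2)) := by ring
      _ ≤ mu (fam F) * mu (fam F) := mul_le_mul h2 h2 h3 (h3.trans h2)
      _ ≤ _ := h1
  have h5 : (F.card : ℝ) / 2 ^ (n.choose 2) ≤ (1 / 2 : ℝ) ^ ((k + 1).choose 2) :=
    le_of_sq_le_sq h4 (by positivity)
  rw [div_le_iff₀ (by positivity)] at h5
  have h6 : (F.card : ℝ) ≤ 2 ^ (n.choose 2 - (k + 1).choose 2) := by
    refine h5.trans (le_of_eq ?_)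
    rw [pow_sub₀ _ (by norm_num) hch, one_div, inv_pow]
    ring
  exact_mod_cast h6

end Pool.Agent.Helper38.C3
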