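import Mathlib
import Pool.Agent.Helper64.CX.Peel

set_option autoImplicit false

/-! # From the exact bounds for all cross pairs to the chromatic statement -/

namespace Pool.Agent.Helper38.C3

open Finset
open Pool.Agent.Helper64.CX (Cfg Pr Col enc Pr_enc enc_eq Cross Bound card_cfg)
open scoped symmDiff

/-- adjacency of a graph as a Boolean function -/
noncomputable def adj {n : ℕ} (G : SimpleGraph (Fin n)) : Fin n → Fin n → Bool := by
  classical exact fun i j => decide (G.Adj i j)

lemma enc_adj_inj {n : ℕ} : Function.Injective (fun G : SimpleGraph (Fin n) => enc n (adj G)) := by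
  classical
  intro G H h
  have h1 := enc_eq n _ _ h
  have h2 : ∀ i j, i < j → (G.Adj i j ↔ H.Adj i j) := by
    intro i j hij
    have := h1 i j hij
    simpa [adj] using this
  ext i j
  rcases lt_trichotomy i j with hij | hij | hij
  · exact h2 i j hij
  · subst hij; simp
  · rw [G.adj_comm, H.adj_comm]; exact h2 j i hij

/-- Exactness for all cross pairs gives the bound for agreeing families. -/
theorem cross_of (n k : ℕ)
    (hB : Bound k n (((1 / 2 : ℝ) ^ ((k + 1).choose 2)) ^ 2)) (F₁ F₂ : Finset (SimpleGraph (Fin n)))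
    (h : ∀ G ∈ F₁, ∀ H ∈ F₂, ((k + 1 : ℕ) : ℕ∞) ≤ ((G ∆ H)ᶜ).chromaticNumber) :
    F₁.card * F₂.card ≤ (2 ^ (n.choose 2 - (k + 1).choose 2)) ^ 2 := by
  classical
  rcases F₁.eq_empty_or_nonempty with he | ⟨G₀, hG₀⟩
  · rw [he, card_empty, zero_mul]; positivity
  rcases F₂.eq_empty_or_nonempty with he | ⟨H₀, hH₀⟩
  · rw [he, card_empty, mul_zero]; positivity
  have htn : k + 1 ≤ n := by
    have h1 := (h G₀ hG₀ H₀ hH₀).trans
      ((G₀ ∆ H₀)ᶜ).colorable_of_fintype.chromaticNumber_le
    rw [Fintype.card_fin] at h1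
    exact_mod_cast h1
  set 𝒜 : Finset (Cfg n) := F₁.image (fun G => enc n (adj G)) with hA
  set ℬ : Finset (Cfg n) := F₂.image (fun G => enc n (adj Gᶜ)) with hB'
  have hAc : 𝒜.card = F₁.card := card_image_of_injective _ enc_adj_inj
  have hBc : ℬ.card = F₂.card := by
    rw [hB']
    apply card_image_of_injective
    intro G H h
    exact compl_injective (enc_adj_inj h)
  have hc : Cross k n 𝒜 ℬ := by
    intro A hA' B hB' hcol
    obtain ⟨G, hG, rfl⟩ := mem_image.1 hA'
    obtain ⟨H, hH, rfl⟩ := mem_image.1 hB'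
    obtain ⟨c, hc⟩ := hcol
    rw [Pr_enc] at hc
    have hcol2 : ((G ∆ H)ᶜ).Colorable k := by
      refine ⟨SimpleGraph.Coloring.mk c ?_⟩
      have hlt : ∀ u v, u < v → ((G ∆ H)ᶜ).Adj u v → c u ≠ c v := by
        intro u v huv hadj
        refine hc u v huv ?_
        rw [SimpleGraph.compl_adj] at hadj
        simp only [symmDiff, SimpleGraph.sup_adj, SimpleGraph.sdiff_adj] at hadj
        simp only [adj, SimpleGraph.compl_adj, ne_eq, decide_eq_decide]
        have := huv.ne
        tauto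
      intro u v huv
      rcases lt_trichotomy u v with h1 | h1 | h1
      · exact hlt u v h1 huv
      · exact absurd h1 huv.ne
      · exact (hlt v u h1 huv.symm).symm
    have h1 := (h G hG H hH).trans hcol2.chromaticNumber_le
    have h2 : k + 1 ≤ k := by exact_mod_cast h1
    omega
  have hmain := hB 𝒜 ℬ hc
  rw [hAc, hBc] at hmain
  have hch : (k + 1).choose 2 ≤ n.choose 2 := Nat.choose_le_choose 2 htn
  have hreal : (F₁.card : ℝ) * F₂.card ≤ (2 ^ (n.choose 2 - (k + 1).choose 2)) ^ 2 := by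
    calc (F₁.card : ℝ) * F₂.card ≤ _ := hmain
      _ = (2 ^ (n.choose 2 - (k + 1).choose 2)) ^ 2 := by
          rw [← mul_pow]
          congr 1
          rw [pow_sub₀ _ (by norm_num) hch, one_div, inv_pow]
          ring
  exact_mod_cast hreal

/-- **The single family statement.** -/
theorem main_of (H : ∀ k, 2 ≤ k → ∀ n, Bound k n (((1 / 2 : ℝ) ^ ((k + 1).choose 2)) ^ 2)) :
    ∀ (t : ℕ), 3 ≤ t → ∀ (n : ℕ) (F : Finset (SimpleGraph (Fin n))),
      (∀ G ∈ F, ∀ H ∈ F, ((t : ℕ∞) ≤ (G ⊓ H).chromaticNumber)) →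
        F.card ≤ 2 ^ (n.choose 2 - t.choose 2) := by
  classical
  intro t ht n F hF
  obtain ⟨k, rfl⟩ : ∃ k, t = k + 1 := ⟨t - 1, by omega⟩
  have h1 := cross_of n k (H k (by omega) n) F F (fun G hG H hH => by
    refine (hF G hG H hH).trans (SimpleGraph.chromaticNumber_mono _ ?_)
    intro u v huv
    rw [SimpleGraph.inf_adj] at huv
    rw [SimpleGraph.compl_adj]
    simp only [symmDiff, SimpleGraph.sup_adj, SimpleGraph.sdiff_adj]
    exact ⟨huv.1.ne, by tauto⟩)
  have h2 : F.card ^ 2 ≤ (2 ^ (n.choose 2 - (k + 1).choose 2)) ^ 2 := by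
    calc F.card ^ 2 = F.card * F.card := by ring
      _ ≤ _ := h1
  exact (Nat.pow_le_pow_iff_left (by norm_num)).1 h2

end Pool.Agent.Helper38.C3
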