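import Mathlib
import Pool.Agent.Helper64.CX.Peel
import Pool.Agent.Helper38.C3.Base
import Pool.Agent.Helper38.C3.Final

set_option autoImplicit false

/-! # The induction: small numbers of vertices and the two step scheme -/

namespace Pool.Agent.Helper38.C3

open Finset
open Pool.Agent.Helper64.CX (Cfg Pr Col enc Pr_enc enc_eq Cross Bound card_cfg)

/-- the exact constant for `k` colours -/
noncomputable def KK (k : ℕ) : ℝ := ((1 / 2 : ℝ) ^ ((k + 1).choose 2)) ^ 2

lemma KK_pos (k : ℕ) : 0 < KK k := by unfold KK; positivity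

/-- An injective colouring is proper. -/
lemma Pr_of_inj {k : ℕ} : ∀ (n : ℕ) (A B : Cfg n) (c : Fin n → Fin k), Function.Injective c →
    Pr n A B c := by
  intro n
  induction n with
  | zero => intro _ _ _ _; trivial
  | succ n ih =>
    intro A B c hc
    refine ⟨ih A.1 B.1 _ (hc.comp (Fin.castSucc_injective n)), fun i _ h => ?_⟩
    exact absurd (hc h) (Fin.castSucc_lt_last i).ne

lemma bound_le (k n : ℕ) (hn : n ≤ k) (K : ℝ) (hK : 0 ≤ K) : Bound k n K := by
  intro F G h
  rcases F.eq_empty_or_nonempty with he | ⟨A, hA⟩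
  · rw [he]; simp only [card_empty, Nat.cast_zero, zero_mul]; positivity
  rcases G.eq_empty_or_nonempty with he | ⟨B, hB⟩
  · rw [he]; simp only [card_empty, Nat.cast_zero, mul_zero]; positivity
  exact absurd ⟨Fin.castLE hn, Pr_of_inj n A B _ (Fin.castLE_injective hn)⟩ (h A hA B hB)

/-- Two graphs on `k + 1` vertices whose difference is not `k`-colourable differ at all pairs. -/
lemma differ_all (k : ℕ) (a b : Fin (k + 1) → Fin (k + 1) → Bool)
    (h : ¬ Col k (k + 1) (enc (k + 1) a) (enc (k + 1) b)) : ∀ i j, i < j → a i j ≠ b i j := by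
  intro i₀ j₀ hij heq
  apply h
  set e := (finSuccAboveEquiv j₀).symm with he
  refine ⟨fun x => if hx : x = j₀ then e ⟨i₀, hij.ne⟩ else e ⟨x, hx⟩, ?_⟩
  rw [Pr_enc]
  intro i j hlt hne hcc
  by_cases hi : i = j₀
  · have hj : j ≠ j₀ := fun hj => by rw [hi, hj] at hlt; exact lt_irrefl _ hlt
    simp only [hi, hj, dif_pos, dif_neg, not_false_eq_true] at hcc
    have := Subtype.ext_iff.1 (e.injective hcc)
    simp only at this
    rw [hi, ← this] at hlt
    exact lt_asymm hlt hij
  · by_cases hj : j = j₀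
    · simp only [hi, hj, dif_pos, dif_neg, not_false_eq_true] at hcc
      have := Subtype.ext_iff.1 (e.injective hcc)
      simp only at this
      rw [this, hj] at hne
      exact hne heq
    · simp only [hi, hj, dif_neg, not_false_eq_true] at hcc
      have := Subtype.ext_iff.1 (e.injective hcc)
      simp only at this
      exact hlt.ne this

lemma card_le_one_of (k : ℕ) (F : Finset (Cfg (k + 1))) (B : Cfg (k + 1))
    (h : ∀ A ∈ F, ¬ Col k (k + 1) A B) : F.card ≤ 1 := by
  rw [card_le_one]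
  intro A hA A' hA'
  have h1 := h A hA
  have h2 := h A' hA'
  rw [← enc_dec _ A, ← enc_dec _ B] at h1
  rw [← enc_dec _ A', ← enc_dec _ B] at h2
  have d1 := differ_all k _ _ h1
  have d2 := differ_all k _ _ h2
  rw [← enc_dec _ A, ← enc_dec _ A']
  refine enc_congr _ _ _ fun i j hij => ?_
  have e1 := d1 i j hij
  have e2 := d2 i j hij
  cases ha : dec (k + 1) A i j <;> cases hb : dec (k + 1) B i j <;>
    cases hc : dec (k + 1) A' i j <;> simp_all

lemma Col_symm {k : ℕ} (n : ℕ) (A B : Cfg n) (h : Col k n A B) : Col k n B A := by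
  obtain ⟨c, hc⟩ := h
  refine ⟨c, ?_⟩
  rw [← enc_dec n A, ← enc_dec n B, Pr_enc] at hc
  rw [← enc_dec n A, ← enc_dec n B, Pr_enc]
  intro i j hij hne
  exact hc i j hij (fun h => hne h.symm)

lemma bound_succ (k : ℕ) : Bound k (k + 1) (KK k) := by
  intro F G h
  have e : KK k * ((2 : ℝ) ^ ((k + 1).choose 2)) ^ 2 = 1 := by
    unfold KK
    rw [← mul_pow, ← mul_pow]; norm_num
  rw [e]
  rcases F.eq_empty_or_nonempty with he | ⟨A, hA⟩
  · rw [he]; simp
  rcases G.eq_empty_or_nonempty with he | ⟨B, hB⟩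
  · rw [he]; simp
  have h1 := card_le_one_of k F B (fun A hA => h A hA B hB)
  have h2 := card_le_one_of k G A (fun B hB hc => h A hA B hB (Col_symm _ _ _ hc))
  have h1' : (F.card : ℝ) ≤ 1 := by exact_mod_cast h1
  have h2' : (G.card : ℝ) ≤ 1 := by exact_mod_cast h2
  calc (F.card : ℝ) * G.card ≤ 1 * 1 := mul_le_mul h1' h2' (Nat.cast_nonneg _) (by norm_num)
    _ = 1 := by norm_num

/-- **The induction scheme.** -/
theorem all_of (h2 : ∀ n, Bound 2 n (KK 2)) (h3 : ∀ n, Bound 3 n (KK 3))
    (hnext : ∀ k, 4 ≤ k → Bound k (k + 2) (KK k))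
    (hstep : ∀ k n, 4 ≤ k → k + 3 ≤ n → (∀ m, Bound (k - 1) m (KK (k - 1))) →
      (∀ m, m < n → Bound k m (KK k)) → Bound k n (KK k)) :
    ∀ k, 2 ≤ k → ∀ n, Bound k n (KK k) := by
  intro k
  induction k using Nat.strong_induction_on with
  | _ k ihk =>
    intro hk
    rcases eq_or_lt_of_le hk with h | hk3
    · rw [← h]; exact h2
    rcases eq_or_lt_of_le (show 3 ≤ k from hk3) with h | hk4
    · rw [← h]; exact h3
    have hk4' : 4 ≤ k := hk4
    intro n
    induction n using Nat.strong_induction_on with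
    | _ n ihn =>
      rcases Nat.lt_or_ge k n with hlt | hge
      · rcases eq_or_lt_of_le (show k + 1 ≤ n from hlt) with h | h
        · rw [← h]; exact bound_succ k
        rcases eq_or_lt_of_le (show k + 2 ≤ n from h) with h' | h'
        · rw [← h']; exact hnext k hk4'
        exact hstep k n hk4' h' (fun m => ihk (k - 1) (by omega) (by omega) m)
            (fun m hm => ihn m hm)
      · exact bound_le k n hge _ (KK_pos k).le

/-- **The chromatic statement from the pieces.** -/
theorem frozen_of (h2 : ∀ n, Bound 2 n (KK 2)) (h3 : ∀ n, Bound 3 n (KK 3))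
    (hnext : ∀ k, 4 ≤ k → Bound k (k + 2) (KK k))
    (hstep : ∀ k n, 4 ≤ k → k + 3 ≤ n → (∀ m, Bound (k - 1) m (KK (k - 1))) →
      (∀ m, m < n → Bound k m (KK k)) → Bound k n (KK k)) :
    ∀ (t : ℕ), 3 ≤ t → ∀ (n : ℕ) (F : Finset (SimpleGraph (Fin n))),
      (∀ G ∈ F, ∀ H ∈ F, ((t : ℕ∞) ≤ (G ⊓ H).chromaticNumber)) →
        F.card ≤ 2 ^ (n.choose 2 - t.choose 2) :=
  main_of (fun k hk n => all_of h2 h3 hnext hstep k hk n)

end Pool.Agent.Helper38.C3
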