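import Mathlib
import Pool.Agent.Helper38.C3.Ind
import Pool.Agent.Helper38.C3.End
import Pool.Agent.Helper41.PX.Step
import Pool.Agent.Helper50.CX.Br
import Pool.Agent.Helper50.CX.Next
import Pool.Agent.Helper95.GC.EFin

set_option autoImplicit false

/-! # All `k` from three colours -/

namespace Pool.Agent.Helper38.C3

open Finset
open Pool.Agent.Helper41.PX (UB)
open Pool.Agent.Helper64.CX (Bound)
open Pool.Agent.Helper50.CX (UB_of_Bound)

variable {V : Type*} [Fintype V] [DecidableEq V]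

lemma UB_two (S : Finset V) : UB 2 S := by
  refine UB_of_Bound 2 S.card ?_ S rfl
  have h := Pool.Agent.Helper95.GC.bound_two S.card
  have e : Pool.Agent.Helper41.PX.KK 2 = 1 / 64 := by
    unfold Pool.Agent.Helper41.PX.KK
    norm_num [Nat.choose]
  rw [e]
  exact h

lemma UB_small (k : ℕ) (hk : 3 ≤ k) (S : Finset V) (hS : S.card ≤ k + 2) : UB k S := by
  refine UB_of_Bound k S.card ?_ S rfl
  generalize S.card = n at hS
  rcases Nat.lt_or_ge k n with hlt | hge
  · rcases eq_or_lt_of_le (show k + 1 ≤ n from hlt) with h | h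
    · rw [← h]; exact bound_succ k
    · have h' : n = k + 2 := by omega
      rw [h']
      exact Pool.Agent.Helper50.CX.boundNext k hk
  · exact bound_le k n hge _ (by unfold Pool.Agent.Helper41.PX.KK; positivity)

/-- **The chromatic statement from three colours.** -/
theorem frozen_of_three (h3 : ∀ (n : ℕ) (S : Finset (Fin n)), UB 3 S) :
    ∀ (t : ℕ), 3 ≤ t → ∀ (n : ℕ) (F : Finset (SimpleGraph (Fin n))),
      (∀ G ∈ F, ∀ H ∈ F, ((t : ℕ∞) ≤ (G ⊓ H).chromaticNumber)) →
        F.card ≤ 2 ^ (n.choose 2 - t.choose 2) := by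
  refine frozen_of_UB fun k hk n => ?_
  rcases eq_or_lt_of_le hk with h | h
  · rw [← h]; exact UB_two _
  · exact Pool.Agent.Helper41.PX.all_of (h3 n) (fun k hk S hS => UB_small k (by omega) S hS) k h _

/-- the same from the recursive form -/
theorem frozen_of_bound_three (h3 : ∀ n, Bound 3 n (1 / 4096)) :
    ∀ (t : ℕ), 3 ≤ t → ∀ (n : ℕ) (F : Finset (SimpleGraph (Fin n))),
      (∀ G ∈ F, ∀ H ∈ F, ((t : ℕ∞) ≤ (G ⊓ H).chromaticNumber)) →
        F.card ≤ 2 ^ (n.choose 2 - t.choose 2) := by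
  refine frozen_of_three fun n S => UB_of_Bound 3 S.card ?_ S rfl
  have e : Pool.Agent.Helper41.PX.KK 3 = 1 / 4096 := by
    unfold Pool.Agent.Helper41.PX.KK
    norm_num [Nat.choose]
  rw [e]
  exact h3 _

end Pool.Agent.Helper38.C3
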