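import Mathlib
import Pool.Agent.Helper38.C3.Top
import Pool.Agent.Helper75.E43.Six

set_option autoImplicit false

/-! # Three colours, at most six vertices -/

namespace Pool.Agent.Helper38.C3

open Finset
open Pool.Agent.Helper41.PX (UB)
open Pool.Agent.Helper64.CX (Bound)
open Pool.Agent.Helper50.CX (UB_of_Bound)

variable {V : Type*} [Fintype V] [DecidableEq V]

/-- Three colours, at most six vertices. -/
theorem UB_three_small (S : Finset V) (hS : S.card ≤ 6) : UB 3 S := by
  rcases Nat.lt_or_ge S.card 6 with h | h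
  · exact UB_small 3 le_rfl S (by omega)
  · refine UB_of_Bound 3 6 ?_ S (le_antisymm hS h)
    have e : Pool.Agent.Helper41.PX.KK 3 = 1 / 4096 := by
      unfold Pool.Agent.Helper41.PX.KK
      norm_num [Nat.choose]
    rw [e]
    exact Pool.Agent.Helper75.E43.bound_three_six

/-- **The chromatic statement from the step for three colours.** -/
theorem frozen_of_step3
    (h3 : ∀ (n : ℕ) (S : Finset (Fin n)), 7 ≤ S.card → (∀ T : Finset (Fin n), UB 2 T) →
      (∀ T : Finset (Fin n), T.card < S.card → UB 3 T) → UB 3 S) :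
    ∀ (t : ℕ), 3 ≤ t → ∀ (n : ℕ) (F : Finset (SimpleGraph (Fin n))),
      (∀ G ∈ F, ∀ H ∈ F, ((t : ℕ∞) ≤ (G ⊓ H).chromaticNumber)) →
        F.card ≤ 2 ^ (n.choose 2 - t.choose 2) := by
  refine frozen_of_three fun n S => ?_
  induction hm : S.card using Nat.strong_induction_on generalizing S with
  | _ m ih =>
    subst hm
    rcases Nat.lt_or_ge 6 S.card with h | h
    · exact h3 n S h UB_two fun T hT => ih T.card hT T rfl
    · exact UB_three_small S h

end Pool.Agent.Helper38.C3
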