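import Mathlib
import Pool.Agent.Helper38.C3.Sm3
import Pool.Agent.Helper41.PX.Step3

set_option autoImplicit false

/-! # The agreement form: compression to down-sets -/

namespace Pool.Agent.Helper38.C3

open Finset
open scoped BigOperators
open Pool.Agent.Helper41.PX (mu Conf Cov un PairOn UB)

variable {V : Type*} [Fintype V] [DecidableEq V]

/-- **All numbers of colours, union form.** -/
theorem UB_all (k : ℕ) (hk : 2 ≤ k) (S : Finset V) : UB k S := by
  rcases eq_or_lt_of_le hk with h | h
  · rw [← h]; exact UB_two _
  · refine Pool.Agent.Helper41.PX.all_of ?_ (fun k hk S hS => UB_small k (by omega) S hS) k h _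
    intro S
    induction hm : S.card using Nat.strong_induction_on generalizing S with
    | _ m ih =>
      subst hm
      rcases Nat.lt_or_ge 6 S.card with h | h
      · exact Pool.Agent.Helper41.PX.step3 S h UB_two fun T hT => ih T.card hT T rfl
      · exact UB_three_small S h

/-- coordinate `e` set to `b` -/
def st (e : Sym2 V) (b : Bool) (A : Conf V) : Conf V := Function.update A e b

/-- compression in the coordinate `e` -/
def comp (e : Sym2 V) (F : Conf V → Prop) (A : Conf V) : Prop :=
  if A e = true then F A ∧ F (st e false A) else F A ∨ F (st e true A)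

omit [Fintype V] in
lemma st_same (e : Sym2 V) (b : Bool) (A : Conf V) : st e b A e = b := by simp [st]

omit [Fintype V] in
lemma st_ne {e e' : Sym2 V} (h : e' ≠ e) (b : Bool) (A : Conf V) : st e b A e' = A e' := by
  simp [st, h]

omit [Fintype V] in
lemma st_st (e : Sym2 V) (b c : Bool) (A : Conf V) : st e b (st e c A) = st e b A := by
  simp [st]

omit [Fintype V] in
lemma st_self (e : Sym2 V) (b : Bool) (A : Conf V) (h : A e = b) : st e b A = A := by
  rw [← h]; simp [st]

omit [Fintype V] in
lemma st_comm {e e' : Sym2 V} (h : e ≠ e') (b c : Bool) (A : Conf V) :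
    st e b (st e' c A) = st e' c (st e b A) := by
  unfold st
  exact Function.update_comm (Ne.symm h) _ _ _

/-- flipping the coordinate `e` -/
def fl (e : Sym2 V) (A : Conf V) : Conf V := st e (!(A e)) A

omit [Fintype V] in
lemma fl_fl (e : Sym2 V) : Function.Involutive (fl e : Conf V → Conf V) := by
  intro A
  unfold fl
  rw [st_same, st_st, Bool.not_not]
  exact st_self e _ A rfl

/-- compression keeps the measure -/
lemma mu_comp (e : Sym2 V) (F : Conf V → Prop) : mu (comp e F) = mu F := by
  classical
  have hsum : ∀ g : Conf V → ℝ, ∑ A, g A = (∑ A, (g A + g (fl e A))) / 2 := by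
    intro g
    have h1 : ∑ A, g (fl e A) = ∑ A, g A :=
      Equiv.sum_comp (Function.Involutive.toPerm _ (fl_fl e)) g
    rw [sum_add_distrib, h1]
    ring
  have key : ∑ A, (if comp e F A then (1 : ℝ) else 0) = ∑ A, (if F A then (1 : ℝ) else 0) := by
    rw [hsum (fun A => if comp e F A then (1 : ℝ) else 0),
      hsum (fun A => if F A then (1 : ℝ) else 0)]
    congr 1
    refine sum_congr rfl fun A _ => ?_
    rcases Bool.eq_false_or_eq_true (A e) with h | h
    · have h1 : fl e A = st e false A := by unfold fl; rw [h]; rfl
      have h2 : comp e F A ↔ F A ∧ F (st e false A) := by unfold comp; rw [if_pos h]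
      have h3 : comp e F (fl e A) ↔ F (st e false A) ∨ F A := by
        rw [h1]
        unfold comp
        rw [st_same, if_neg (by simp), st_st, st_self e true A h]
      rw [if_congr h2 rfl rfl, if_congr h3 rfl rfl, h1]
      by_cases p : F A <;> by_cases q : F (st e false A) <;> simp [p, q]
    · have h1 : fl e A = st e true A := by unfold fl; rw [h]; rfl
      have h2 : comp e F A ↔ F A ∨ F (st e true A) := by unfold comp; rw [if_neg (by simp [h])]
      have h3 : comp e F (fl e A) ↔ F (st e true A) ∧ F A := by
        rw [h1]
        unfold comp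
        rw [st_same, if_pos rfl, st_st, st_self e false A h]
      rw [if_congr h2 rfl rfl, if_congr h3 rfl rfl, h1]
      by_cases p : F A <;> by_cases q : F (st e true A) <;> simp [p, q]
  unfold mu
  rw [Fintype.expect_eq_sum_div_card, Fintype.expect_eq_sum_div_card]
  rw [key]

/-- closed under deleting the coordinate `e` -/
def Cl (e : Sym2 V) (F : Conf V → Prop) : Prop := ∀ A, F A → F (st e false A)

omit [Fintype V] in
lemma cl_comp (e : Sym2 V) (F : Conf V → Prop) : Cl e (comp e F) := by
  intro A hA
  unfold comp at hA ⊢
  rw [st_same, if_neg (by simp), st_st]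
  split_ifs at hA with h
  · exact Or.inl hA.2
  · have h' : A e = false := by simpa using h
    rw [st_self e false A h']
    exact hA

omit [Fintype V] in
lemma cl_comp_of {e e' : Sym2 V} (F : Conf V → Prop) (h : Cl e' F) : Cl e' (comp e F) := by
  by_cases he : e' = e
  · rw [he]; exact cl_comp e F
  intro A hA
  have h1 : st e' false A e = A e := st_ne (Ne.symm he) _ _
  unfold comp at hA ⊢
  rw [h1]
  split_ifs at hA ⊢ with h2
  · refine ⟨h _ hA.1, ?_⟩
    rw [st_comm (Ne.symm he)]
    exact h _ hA.2
  · rcases hA with hA | hA
    · exact Or.inl (h _ hA)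
    · right
      rw [st_comm (Ne.symm he)]
      exact h _ hA

/-- disagreement of two configurations -/
def xo (A C : Conf V) : Conf V := fun e => xor (A e) (C e)

/-- pairs in the agreement form -/
def XPair (k : ℕ) (S : Finset V) (F H : Conf V → Prop) : Prop :=
  ∀ A C, F A → H C → ¬ Cov k S (xo A C)

omit [Fintype V] [DecidableEq V] in
lemma cov_mono {k : ℕ} {S : Finset V} {z z' : Conf V} (h : ∀ e, z e = true → z' e = true)
    (hz : Cov k S z) : Cov k S z' := by
  obtain ⟨r, hr⟩ := hz
  exact ⟨r, fun a ha b hb hab hrab => h _ (hr a ha b hb hab hrab)⟩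

omit [Fintype V] in
lemma xpair_comp {k : ℕ} {S : Finset V} {F H : Conf V → Prop} (h : XPair k S F H) (e : Sym2 V) :
    XPair k S (comp e F) (comp e H) := by
  -- it is enough to find members whose disagreement contains the given one
  intro A C hA hC hcov
  have key : ∀ A' C' : Conf V, F A' → H C' → (∀ e', e' ≠ e → A' e' = A e') →
      (∀ e', e' ≠ e → C' e' = C e') → (xor (A e) (C e) = true → xor (A' e) (C' e) = true) →
      False := by
    intro A' C' hA' hC' h1 h2 h3
    refine h A' C' hA' hC' (cov_mono (fun e' he' => ?_) hcov)
    by_cases hee : e' = e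
    · rw [hee] at he' ⊢; exact h3 he'
    · unfold xo at he' ⊢
      rw [h1 e' hee, h2 e' hee]; exact he'
  have self : ∀ (B : Conf V) (e' : Sym2 V), e' ≠ e → B e' = B e' := fun _ _ _ => rfl
  have upd : ∀ (B : Conf V) (b : Bool) (e' : Sym2 V), e' ≠ e → st e b B e' = B e' :=
    fun B b e' he' => st_ne he' b B
  unfold comp at hA hC
  split_ifs at hA hC with a c
  · exact key A C hA.1 hC.1 (self A) (self C) id
  · rcases hC with hC | hC
    · exact key A C hA.1 hC (self A) (self C) id
    · exact key _ _ hA.2 hC (upd A false) (upd C true) (fun _ => by simp [st_same])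
  · rename_i c
    rcases hA with hA | hA
    · exact key A C hA hC.1 (self A) (self C) id
    · exact key _ _ hA hC.2 (upd A true) (upd C false) (fun _ => by simp [st_same])
  · rename_i c
    have a' : A e = false := by simpa using a
    have c' : C e = false := by simpa using c
    have h0 : xor (A e) (C e) = true → False := by rw [a', c']; simp
    rcases hA with hA | hA <;> rcases hC with hC | hC
    · exact key A C hA hC (self A) (self C) id
    · exact key _ _ hA hC (self A) (upd C true) (fun h => (h0 h).elim)
    · exact key _ _ hA hC (upd A true) (self C) (fun h => (h0 h).elim)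
    · exact key _ _ hA hC (upd A true) (upd C true) (fun h => (h0 h).elim)

/-- compression in all coordinates -/
lemma exists_down {k : ℕ} {S : Finset V} {F H : Conf V → Prop} (h : XPair k S F H)
    (T : Finset (Sym2 V)) : ∃ F' H' : Conf V → Prop, XPair k S F' H' ∧ mu F' = mu F ∧
      mu H' = mu H ∧ ∀ e ∈ T, Cl e F' ∧ Cl e H' := by
  induction T using Finset.induction_on with
  | empty => exact ⟨F, H, h, rfl, rfl, fun e he => absurd he (notMem_empty e)⟩
  | insert e T _ ih =>
    obtain ⟨F', H', h1, h2, h3, h4⟩ := ih
    refine ⟨comp e F', comp e H', xpair_comp h1 e, (mu_comp e F').trans h2,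
      (mu_comp e H').trans h3, ?_⟩
    intro e' he'
    rcases mem_insert.1 he' with h5 | h5
    · rw [h5]; exact ⟨cl_comp e F', cl_comp e H'⟩
    · exact ⟨cl_comp_of F' (h4 e' h5).1, cl_comp_of H' (h4 e' h5).2⟩

omit [Fintype V] in
lemma cl_many {H : Conf V → Prop} (h : ∀ e, Cl e H) (T : Finset (Sym2 V)) {C : Conf V}
    (hC : H C) : H (fun e => if e ∈ T then false else C e) := by
  induction T using Finset.induction_on with
  | empty => simpa using hC
  | insert e T _ ih =>
    have h1 := h e _ ih
    have h2 : st e false (fun e => if e ∈ T then false else C e) =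
        fun e' => if e' ∈ insert e T then false else C e' := by
      funext e'
      by_cases he : e' = e
      · rw [he, st_same]; simp
      · rw [st_ne he]; simp [he]
    rw [h2] at h1
    exact h1

/-- **The agreement form from the union form.** -/
theorem XB {k : ℕ} {S : Finset V} (hU : UB k S) (F H : Conf V → Prop) (h : XPair k S F H) :
    mu F * mu H ≤ Pool.Agent.Helper41.PX.KK k := by
  classical
  obtain ⟨F', H', h1, h2, h3, h4⟩ := exists_down h univ
  rw [← h2, ← h3]
  refine hU F' H' fun A C hA hC hcov => ?_
  have h5 : H' (fun e => if e ∈ univ.filter (fun e => A e = true) then false else C e) :=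
    cl_many (fun e => (h4 e (mem_univ e)).2) _ hC
  refine h1 A _ hA h5 (cov_mono (fun e he => ?_) hcov)
  unfold un at he
  unfold xo
  rcases Bool.eq_false_or_eq_true (A e) with ha | ha
  · simp [ha]
  · rw [ha] at he
    simp [ha] at he ⊢
    exact he

end Pool.Agent.Helper38.C3
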